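import Pool.Agent.H598.TK.Strict

/-!
# Sums of `4k` (and of `2k + 2u`) `k`-th powers in polynomial rings over finite fields
-/

namespace Pool.Agent.Results.MP_ee77ae_nt.FunctionFieldFourK

open Polynomial

/-- The polynomial `m` is a strict sum of `s` `k`-th powers: `m = ∑ x i ^ k`, where the degree of
each `x i ^ k` is less than `deg m + k`. -/
def StrictSum {F : Type*} [Field F] (k s : ℕ) (m : F[X]) : Prop :=
  ∃ x : Fin s → F[X], (∀ i, k * (x i).natDegree < m.natDegree + k) ∧ ∑ i, x i ^ k = m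

/-- (1) Let `k ≥ 2`, let `F` be a finite field of characteristic larger than `k` with at least
`(2k) ^ (12 k)` elements. Then every polynomial over `F` of sufficiently large degree is a strict
sum of `4k` `k`-th powers.

(2) More generally, let `k ≥ 2` and `1 ≤ u ≤ k`, and let `F` be a finite field in which no binomial
coefficient `k.choose a` with `a ≤ k` vanishes, with `(2k) ^ (12 k ^ 2) ≤ |F| ^ u`. Then every
polynomial over `F` of sufficiently large degree is a strict sum of `2k + 2u` `k`-th powers.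
(For `u = 1` these are `2k + 2` powers, for `u = k` they are `4k`.) -/
theorem result :
    (∀ (k : ℕ), 2 ≤ k → ∀ (F : Type*) [Field F] [Fintype F], k < ringChar F →
      (2 * k) ^ (12 * k) ≤ Fintype.card F →
      ∃ D : ℕ, ∀ m : F[X], D ≤ m.natDegree → StrictSum k (4 * k) m) ∧
    (∀ (k u : ℕ), 2 ≤ k → 1 ≤ u → u ≤ k → ∀ (F : Type*) [Field F] [Fintype F],
      (∀ a, a ≤ k → ((k.choose a : ℕ) : F) ≠ 0) →
      (2 * k) ^ (12 * k ^ 2) ≤ Fintype.card F ^ u →
      ∃ D : ℕ, ∀ m : F[X], D ≤ m.natDegree → StrictSum k (2 * k + 2 * u) m) := by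
  refine ⟨?_, ?_⟩
  · intro k hk F _ _ hchar hq
    have hq' : (2 * k) ^ (12 * k ^ 2) ≤ Fintype.card F ^ k := by
      calc (2 * k) ^ (12 * k ^ 2) = ((2 * k) ^ (12 * k)) ^ k := by rw [← pow_mul]; ring_nf
        _ ≤ Fintype.card F ^ k := Nat.pow_le_pow_left hq k
    obtain ⟨D, hD⟩ := Pool.Agent.H598.TK.strict_large hk (show 1 ≤ k by omega) le_rfl
      (Pool.Agent.H598.TK.choose_ne (by omega) hchar) hq'
    refine ⟨D, fun m hm => ?_⟩
    have e : 4 * k = 2 * k + 2 * k := by ring
    unfold StrictSum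
    rw [e]
    exact hD m hm
  · intro k u hk hu huk F _ _ hch hq
    exact Pool.Agent.H598.TK.strict_large hk hu huk hch hq

end Pool.Agent.Results.MP_ee77ae_nt.FunctionFieldFourK
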